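import Mathlib

set_option autoImplicit false

/-!
# Vertex sets of partial matchings with singletons have the EKR property

Place the vertices of the `i`-th edge at the positions `2 i` and `2 i + s` of a circle with `2 n`
positions.  Every interval of `2 p + s` consecutive positions contains exactly `2 p + s` vertices,
namely both ends of exactly `p` edges and one end of exactly `s` further edges.  Averaging
Katona's bound for these intervals over all symmetries of the matching gives the theorem.
-/

namespace Pool.Agent.Results.MP_cbbe60_co.PartialMatchings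

open Finset

/-- The family `H^(p,s)(n)`: the vertices of `n K_2` are the pairs `(i, b)` with `i : Fin n` and
`b : Bool`, the `i`-th edge is `{(i, true), (i, false)}`; the members are the sets of vertices which
contain both ends of exactly `p` edges and exactly one end of exactly `s` edges. -/
def H (n p s : ℕ) : Finset (Finset (Fin n × Bool)) :=
  univ.filter fun S =>
    (univ.filter fun i : Fin n => (i, true) ∈ S ∧ (i, false) ∈ S).card = p ∧
    (univ.filter fun i : Fin n => ¬ ((i, true) ∈ S ↔ (i, false) ∈ S)).card = s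

/-- The star of `x`: the members which contain `x`. -/
def star (n p s : ℕ) (x : Fin n × Bool) : Finset (Finset (Fin n × Bool)) :=
  (H n p s).filter fun S => x ∈ S

/-- The partner of a vertex. -/
def flip {n : ℕ} (v : Fin n × Bool) : Fin n × Bool := (v.1, !v.2)

lemma flip_flip {n : ℕ} (v : Fin n × Bool) : flip (flip v) = v := by
  simp [flip]

/-- The symmetries. -/
def G (n : ℕ) : Finset (Equiv.Perm (Fin n × Bool)) :=
  univ.filter fun σ => ∀ v, σ (flip v) = flip (σ v)

lemma mem_G {n : ℕ} {σ : Equiv.Perm (Fin n × Bool)} : σ ∈ G n ↔ ∀ v, σ (flip v) = flip (σ v) := by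
  simp [G]

lemma G_mul {n : ℕ} {σ τ : Equiv.Perm (Fin n × Bool)} (hσ : σ ∈ G n) (hτ : τ ∈ G n) :
    σ * τ ∈ G n := by
  rw [mem_G] at *
  intro v
  rw [Equiv.Perm.mul_apply, Equiv.Perm.mul_apply, hτ, hσ]

lemma G_inv {n : ℕ} {σ : Equiv.Perm (Fin n × Bool)} (hσ : σ ∈ G n) : σ⁻¹ ∈ G n := by
  rw [mem_G] at *
  intro v
  rw [Equiv.Perm.inv_eq_iff_eq, hσ]
  simp

lemma sum_split {n : ℕ} (q : Fin n × Bool → Prop) [DecidablePred q] :
    (univ.filter q).card = (univ.filter fun i : Fin n => q (i, true)).card +
      (univ.filter fun i : Fin n => q (i, false)).card := by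
  rw [card_filter, card_filter, card_filter, Fintype.sum_prod_type, ← Finset.sum_add_distrib]
  refine sum_congr rfl fun i _ => ?_
  rw [Fintype.sum_bool]

/-- Intrinsic description of the family. -/
lemma mem_H_iff {n p s : ℕ} {S : Finset (Fin n × Bool)} : S ∈ H n p s ↔
    (univ.filter fun v => v ∈ S ∧ flip v ∈ S).card = 2 * p ∧
    (univ.filter fun v => v ∈ S ∧ flip v ∉ S).card = s := by
  have h1 : (univ.filter fun v => v ∈ S ∧ flip v ∈ S).card =
      2 * (univ.filter fun i : Fin n => (i, true) ∈ S ∧ (i, false) ∈ S).card := by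
    rw [sum_split]
    have : (univ.filter fun i : Fin n => (i, false) ∈ S ∧ flip (i, false) ∈ S) =
        (univ.filter fun i : Fin n => (i, true) ∈ S ∧ (i, false) ∈ S) := by
      ext i
      simp [flip, and_comm]
    rw [this]
    simp only [flip, Bool.not_true]
    ring
  have h2 : (univ.filter fun v => v ∈ S ∧ flip v ∉ S).card =
      (univ.filter fun i : Fin n => ¬ ((i, true) ∈ S ↔ (i, false) ∈ S)).card := by
    rw [sum_split, ← card_union_of_disjoint]
    · congr 1
      ext i
      simp only [flip, mem_union, mem_filter, mem_univ, true_and, Bool.not_true, Bool.not_false]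
      tauto
    · rw [disjoint_filter]
      intro i _ h3 h4
      exact h3.2 h4.1
  unfold H
  rw [mem_filter, h1, h2]
  simp only [mem_univ, true_and]
  constructor
  · rintro ⟨h3, h4⟩
    exact ⟨by rw [h3], h4⟩
  · rintro ⟨h3, h4⟩
    exact ⟨by omega, h4⟩

lemma map_mem_H {n p s : ℕ} {S : Finset (Fin n × Bool)} (hS : S ∈ H n p s)
    {σ : Equiv.Perm (Fin n × Bool)} (hσ : σ ∈ G n) : S.map σ.toEmbedding ∈ H n p s := by
  rw [mem_H_iff] at *
  rw [mem_G] at hσ
  have key : ∀ v, v ∈ S.map σ.toEmbedding ↔ σ.symm v ∈ S := by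
    intro v
    rw [mem_map_equiv]
  have hflip : ∀ v, σ.symm (flip v) = flip (σ.symm v) := by
    intro v
    rw [Equiv.symm_apply_eq, hσ]
    simp
  have h1 : (univ.filter fun v => v ∈ S.map σ.toEmbedding ∧ flip v ∈ S.map σ.toEmbedding).card =
      (univ.filter fun v => v ∈ S ∧ flip v ∈ S).card := by
    apply card_bij (fun v _ => σ.symm v)
    · intro v hv
      simp only [mem_filter, mem_univ, true_and, key, hflip] at hv ⊢
      exact hv
    · intro v _ w _ h
      exact σ.symm.injective h
    · intro w hw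
      refine ⟨σ w, ?_, by simp⟩
      simp only [mem_filter, mem_univ, true_and, key, hflip] at hw ⊢
      simpa using hw
  have h2 : (univ.filter fun v => v ∈ S.map σ.toEmbedding ∧ flip v ∉ S.map σ.toEmbedding).card =
      (univ.filter fun v => v ∈ S ∧ flip v ∉ S).card := by
    apply card_bij (fun v _ => σ.symm v)
    · intro v hv
      simp only [mem_filter, mem_univ, true_and, key, hflip] at hv ⊢
      exact hv
    · intro v _ w _ h
      exact σ.symm.injective h
    · intro w hw
      refine ⟨σ w, ?_, by simp⟩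
      simp only [mem_filter, mem_univ, true_and, key, hflip] at hw ⊢
      simpa using hw
  rw [h1, h2]
  exact hS

/-- The number of ends of the edge `i` in `S`. -/
def deg {n : ℕ} (S : Finset (Fin n × Bool)) (i : Fin n) : Fin 3 :=
  if (i, true) ∈ S ∧ (i, false) ∈ S then 2 else
    if (i, true) ∈ S ↔ (i, false) ∈ S then 0 else 1

lemma card_deg_two {n p s : ℕ} {S : Finset (Fin n × Bool)} (hS : S ∈ H n p s) :
    (univ.filter fun i => deg S i = 2).card = p := by
  unfold H at hS
  rw [mem_filter] at hS
  rw [← hS.2.1]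
  congr 1
  ext i
  rw [mem_filter, mem_filter]
  unfold deg
  by_cases h1 : (i, true) ∈ S <;> by_cases h2 : (i, false) ∈ S <;> simp [h1, h2]

lemma card_deg_one {n p s : ℕ} {S : Finset (Fin n × Bool)} (hS : S ∈ H n p s) :
    (univ.filter fun i => deg S i = 1).card = s := by
  unfold H at hS
  rw [mem_filter] at hS
  rw [← hS.2.2]
  congr 1
  ext i
  rw [mem_filter, mem_filter]
  unfold deg
  by_cases h1 : (i, true) ∈ S <;> by_cases h2 : (i, false) ∈ S <;> simp [h1, h2]

lemma card_deg_sum {n : ℕ} (S : Finset (Fin n × Bool)) :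
    (univ.filter fun i => deg S i = 0).card + (univ.filter fun i => deg S i = 1).card +
      (univ.filter fun i => deg S i = 2).card = n := by
  have h := Finset.card_eq_sum_card_fiberwise (f := deg S) (s := univ) (t := univ)
    (fun _ _ => mem_coe.mpr (mem_univ _))
  rw [Fin.sum_univ_three] at h
  rw [card_univ, Fintype.card_fin] at h
  exact h.symm

/-- The symmetries act transitively on the family. -/
lemma transitive {n p s : ℕ} {S T : Finset (Fin n × Bool)} (hS : S ∈ H n p s) (hT : T ∈ H n p s) :
    ∃ σ ∈ G n, S.map σ.toEmbedding = T := by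
  classical
  have hcard : ∀ c : Fin 3, Fintype.card {i // deg S i = c} = Fintype.card {i // deg T i = c} := by
    have hS1 := card_deg_one hS
    have hS2 := card_deg_two hS
    have hS0 := card_deg_sum S
    have hT1 := card_deg_one hT
    have hT2 := card_deg_two hT
    have hT0 := card_deg_sum T
    intro c
    rw [Fintype.card_subtype, Fintype.card_subtype]
    fin_cases c
    · show (univ.filter fun i => deg S i = 0).card = (univ.filter fun i => deg T i = 0).card
      omega
    · show (univ.filter fun i => deg S i = 1).card = (univ.filter fun i => deg T i = 1).card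
      omega
    · show (univ.filter fun i => deg S i = 2).card = (univ.filter fun i => deg T i = 2).card
      omega
  let e : Fin n ≃ Fin n := Equiv.ofFiberEquiv (f := deg S) (g := deg T)
    fun c => Fintype.equivOfCardEq (hcard c)
  have he : ∀ i, deg T (e i) = deg S i := fun i => Equiv.ofFiberEquiv_map _ i
  let c : Fin n → Bool := fun i => decide (¬ ((i, true) ∈ S ↔ (e i, true) ∈ T))
  let σ : Equiv.Perm (Fin n × Bool) :=
    { toFun := fun v => (e v.1, xor (c v.1) v.2)
      invFun := fun w => (e.symm w.1, xor (c (e.symm w.1)) w.2)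
      left_inv := fun v => by simp
      right_inv := fun w => by simp }
  have hσ : ∀ v, σ v = (e v.1, xor (c v.1) v.2) := fun v => rfl
  refine ⟨σ, ?_, ?_⟩
  · rw [mem_G]
    intro v
    rw [hσ, hσ]
    simp [flip]
  · have key : ∀ v, v ∈ S ↔ σ v ∈ T := by
      rintro ⟨i, b⟩
      rw [hσ]
      have h := he i
      unfold deg at h
      by_cases h1 : (i, true) ∈ S <;> by_cases h2 : (i, false) ∈ S <;>
        by_cases h3 : (e i, true) ∈ T <;> by_cases h4 : (e i, false) ∈ T <;>
        cases b <;> simp_all [c]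
    ext w
    rw [mem_map_equiv, key]
    simp

/-- The position of a vertex on the circle with `2 n` places. -/
def pos (n s : ℕ) (v : Fin n × Bool) : ZMod (2 * n) :=
  ((2 * (v.1 : ℕ) + if v.2 then s else 0 : ℕ) : ZMod (2 * n))

/-- The vertices whose position lies in the interval of length `2 p + s` starting at `t`. -/
def win (n p s : ℕ) (t : ZMod (2 * n)) : Finset (Fin n × Bool) :=
  univ.filter fun v => (pos n s v - t).val < 2 * p + s

/-- The number of even positions in an interval. -/
lemma count {n : ℕ} (hn : 0 < n) (t : ZMod (2 * n)) (m : ℕ) (hm : m ≤ 2 * n) :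
    (univ.filter fun i : Fin n => (((2 * (i : ℕ) : ℕ) : ZMod (2 * n)) - t).val < m).card =
      (m + 1 - t.val % 2) / 2 := by
  have : NeZero (2 * n) := ⟨by omega⟩
  set a := t.val / 2 with ha
  set b := t.val % 2 with hb
  have htv : t.val < 2 * n := ZMod.val_lt t
  have hab : t.val = 2 * a + b := by omega
  have hb2 : b < 2 := Nat.mod_lt _ (by norm_num)
  have han : a < n := by omega
  have hval : ∀ i : Fin n, (((2 * (i : ℕ) : ℕ) : ZMod (2 * n)) - t).val =
      2 * (((i : ℕ) + 2 * n - a - b) % n) + b := by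
    intro i
    have h1 : (((2 * (i : ℕ) : ℕ) : ZMod (2 * n)) - t) =
        ((2 * (((i : ℕ) + 2 * n - a - b) % n) + b : ℕ) : ZMod (2 * n)) := by
      have h2 : t = ((2 * a + b : ℕ) : ZMod (2 * n)) := by
        rw [← hab]
        exact (ZMod.natCast_zmod_val t).symm
      rw [sub_eq_iff_eq_add, h2, ← Nat.cast_add, ZMod.natCast_eq_natCast_iff]
      have h3 : 2 * (((i : ℕ) + 2 * n - a - b) % n) ≡ 2 * ((i : ℕ) + 2 * n - a - b)
          [MOD 2 * n] := by
        rw [Nat.ModEq, ← Nat.mul_mod_mul_left, Nat.mod_mod]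
      have h4 : 2 * (i : ℕ) + 2 * n + 2 * n = 2 * ((i : ℕ) + 2 * n - a - b) + b + (2 * a + b) := by
        omega
      have h5 : 2 * (i : ℕ) ≡ 2 * (i : ℕ) + 2 * n + 2 * n [MOD 2 * n] := by
        simp [Nat.ModEq]
      refine h5.trans ?_
      rw [h4]
      exact ((h3.symm.add_right b).add_right _)
    rw [h1, ZMod.val_natCast_of_lt]
    have := Nat.mod_lt ((i : ℕ) + 2 * n - a - b) hn
    omega
  have hk : (m + 1 - b) / 2 ≤ n := by omega
  let ρ : Fin n → Fin n := fun i => ⟨((i : ℕ) + 2 * n - a - b) % n, Nat.mod_lt _ hn⟩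
  have hρ : Function.Injective ρ := by
    intro i j hij
    have h1 : ((i : ℕ) + 2 * n - a - b) ≡ ((j : ℕ) + 2 * n - a - b) [MOD n] := by
      have h0 := congrArg Fin.val hij
      exact h0
    have h2 : ((i : ℕ) + 2 * n) ≡ ((j : ℕ) + 2 * n) [MOD n] := by
      have := h1.add_right (a + b)
      rwa [show (i : ℕ) + 2 * n - a - b + (a + b) = (i : ℕ) + 2 * n by omega,
        show (j : ℕ) + 2 * n - a - b + (a + b) = (j : ℕ) + 2 * n by omega] at this
    have h3 : (i : ℕ) ≡ (j : ℕ) [MOD n] := Nat.ModEq.add_right_cancel' _ h2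
    exact Fin.ext (Nat.ModEq.eq_of_lt_of_lt h3 i.2 j.2)
  have hρs : Function.Surjective ρ := Finite.injective_iff_surjective.mp hρ
  have h1 : (univ.filter fun i : Fin n => (((2 * (i : ℕ) : ℕ) : ZMod (2 * n)) - t).val < m).card =
      (range ((m + 1 - b) / 2)).card := by
    apply card_bij (fun i _ => (ρ i : ℕ))
    · intro i hi
      rw [mem_filter, hval] at hi
      rw [mem_range]
      have : (ρ i : ℕ) = ((i : ℕ) + 2 * n - a - b) % n := rfl
      omega
    · intro i _ j _ hij
      exact hρ (Fin.ext hij)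
    · intro r hr
      rw [mem_range] at hr
      obtain ⟨i, hi⟩ := hρs ⟨r, by omega⟩
      have h2 : (ρ i : ℕ) = r := by rw [hi]
      refine ⟨i, ?_, h2⟩
      rw [mem_filter, hval]
      have : (ρ i : ℕ) = ((i : ℕ) + 2 * n - a - b) % n := rfl
      refine ⟨mem_univ i, ?_⟩
      omega
  rw [h1, card_range]

lemma mem_win {n p s : ℕ} {t : ZMod (2 * n)} {v : Fin n × Bool} :
    v ∈ win n p s t ↔ (pos n s v - t).val < 2 * p + s := by
  simp [win]

/-- Every interval of length `2 p + s` is a member of the family. -/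
lemma win_mem {n p s : ℕ} (hn : 0 < n) (h : 2 * p + s ≤ n) (t : ZMod (2 * n)) :
    win n p s t ∈ H n p s := by
  have : NeZero (2 * n) := ⟨by omega⟩
  have hpf : ∀ i : Fin n, pos n s (i, false) = ((2 * (i : ℕ) : ℕ) : ZMod (2 * n)) := by
    intro i
    simp [pos]
  have hpt : ∀ i : Fin n, pos n s (i, true) = ((2 * (i : ℕ) : ℕ) : ZMod (2 * n)) + (s : ℕ) := by
    intro i
    simp [pos]
  have hdouble : (univ.filter fun i : Fin n =>
      (i, true) ∈ win n p s t ∧ (i, false) ∈ win n p s t).card = p := by
    have h1 : (univ.filter fun i : Fin n =>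
        (i, true) ∈ win n p s t ∧ (i, false) ∈ win n p s t) =
        univ.filter fun i : Fin n => (((2 * (i : ℕ) : ℕ) : ZMod (2 * n)) - t).val < 2 * p := by
      ext i
      rw [mem_filter, mem_filter, mem_win, mem_win, hpf, hpt]
      set u := (((2 * (i : ℕ) : ℕ) : ZMod (2 * n)) - t).val with hu
      have hu2 : u < 2 * n := ZMod.val_lt _
      have h2 : ((2 * (i : ℕ) : ℕ) : ZMod (2 * n)) + (s : ℕ) - t = ((u + s : ℕ) : ZMod (2 * n)) := by
        rw [Nat.cast_add, hu, ZMod.natCast_zmod_val]
        ring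
      rw [h2]
      constructor
      · rintro ⟨_, h3, h4⟩
        refine ⟨mem_univ i, ?_⟩
        rw [ZMod.val_natCast_of_lt (by omega)] at h3
        omega
      · rintro ⟨_, h3⟩
        refine ⟨mem_univ i, ?_, by omega⟩
        rw [ZMod.val_natCast_of_lt (by omega)]
        omega
    rw [h1, count hn t (2 * p) (by omega)]
    omega
  have hf : (univ.filter fun i : Fin n => (i, false) ∈ win n p s t).card =
      (2 * p + s + 1 - t.val % 2) / 2 := by
    rw [← count hn t (2 * p + s) (by omega)]
    congr 1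
    ext i
    rw [mem_filter, mem_filter, mem_win, hpf]
  have ht : (univ.filter fun i : Fin n => (i, true) ∈ win n p s t).card =
      (2 * p + s + 1 - (t - (s : ℕ)).val % 2) / 2 := by
    rw [← count hn (t - (s : ℕ)) (2 * p + s) (by omega)]
    congr 1
    ext i
    rw [mem_filter, mem_filter, mem_win, hpt]
    rw [show ((2 * (i : ℕ) : ℕ) : ZMod (2 * n)) + (s : ℕ) - t =
      ((2 * (i : ℕ) : ℕ) : ZMod (2 * n)) - (t - (s : ℕ)) by ring]
  have hpar : t.val % 2 = ((t - (s : ℕ)).val + s) % 2 := by
    have h1 : ((t.val : ℕ) : ZMod (2 * n)) = (((t - (s : ℕ)).val + s : ℕ) : ZMod (2 * n)) := by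
      rw [Nat.cast_add, ZMod.natCast_zmod_val, ZMod.natCast_zmod_val]
      ring
    rw [ZMod.natCast_eq_natCast_iff] at h1
    exact Nat.ModEq.of_mul_right n h1
  have hsum : (univ.filter fun i : Fin n => (i, true) ∈ win n p s t).card +
      (univ.filter fun i : Fin n => (i, false) ∈ win n p s t).card =
      2 * (univ.filter fun i : Fin n =>
        (i, true) ∈ win n p s t ∧ (i, false) ∈ win n p s t).card +
      (univ.filter fun i : Fin n =>
        ¬ ((i, true) ∈ win n p s t ↔ (i, false) ∈ win n p s t)).card := by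
    simp only [card_filter, Finset.mul_sum]
    rw [← sum_add_distrib, ← sum_add_distrib]
    refine sum_congr rfl fun i _ => ?_
    by_cases h1 : (i, true) ∈ win n p s t <;> by_cases h2 : (i, false) ∈ win n p s t <;>
      simp [h1, h2]
  unfold H
  rw [mem_filter]
  refine ⟨mem_univ _, hdouble, ?_⟩
  rw [hdouble, hf, ht] at hsum
  omega

/-- Each vertex lies in exactly `2 p + s` of the intervals. -/
lemma card_times {n p s : ℕ} [NeZero (2 * n)] (hn : 0 < n) (h : 2 * p + s ≤ n)
    (v : Fin n × Bool) :
    (univ.filter fun t : ZMod (2 * n) => v ∈ win n p s t).card = 2 * p + s := by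
  rw [← card_range (2 * p + s)]
  symm
  apply card_bij (fun (j : ℕ) _ => pos n s v - (j : ZMod (2 * n)))
  · intro j hj
    rw [mem_range] at hj
    rw [mem_filter, mem_win]
    refine ⟨mem_univ _, ?_⟩
    rw [show pos n s v - (pos n s v - (j : ZMod (2 * n))) = (j : ℕ) by ring,
      ZMod.val_natCast_of_lt (by omega)]
    exact hj
  · intro j hj k hk hjk
    rw [mem_range] at hj hk
    have h1 : (j : ZMod (2 * n)) = (k : ZMod (2 * n)) := by
      have := sub_right_injective hjk
      exact this
    rw [ZMod.natCast_eq_natCast_iff] at h1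
    exact Nat.ModEq.eq_of_lt_of_lt h1 (by omega) (by omega)
  · intro t ht
    rw [mem_filter, mem_win] at ht
    refine ⟨(pos n s v - t).val, mem_range.mpr ht.2, ?_⟩
    rw [ZMod.natCast_zmod_val]
    ring

/-- Katona's lemma on the circle. -/
lemma katona {n L : ℕ} (hn : 0 < n) (hL : L ≤ n) (A : Finset (ZMod (2 * n)))
    (hA : ∀ x ∈ A, ∀ m : ℕ, L ≤ m → m ≤ 2 * n - L → x + (m : ZMod (2 * n)) ∉ A) :
    A.card ≤ L := by
  have : NeZero (2 * n) := ⟨by omega⟩
  rcases A.eq_empty_or_nonempty with rfl | ⟨x0, hx0⟩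
  · simp
  have hj : ∀ t ∈ A, (t - x0).val < L ∨ 2 * n - L < (t - x0).val := by
    intro t ht
    by_contra hcon
    push Not at hcon
    apply hA x0 hx0 _ hcon.1 hcon.2
    rw [ZMod.natCast_zmod_val]
    simpa using ht
  let φ : ZMod (2 * n) → ℕ := fun t => if (t - x0).val < L then (t - x0).val else
    (t - x0).val - (2 * n - L)
  have hφ : ∀ t, φ t = if (t - x0).val < L then (t - x0).val else
    (t - x0).val - (2 * n - L) := fun t => rfl
  have hlt : ∀ t : ZMod (2 * n), (t - x0).val < 2 * n := fun t => ZMod.val_lt _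
  rw [← card_range L]
  apply card_le_card_of_injOn φ
  · intro t ht
    have h1 := hj t ht
    have h2 := hlt t
    rw [coe_range, Set.mem_Iio, hφ]
    split_ifs <;> omega
  · intro t ht t' ht' heq
    have h1 := hj t ht
    have h2 := hlt t
    have h1' := hj t' ht'
    have h2' := hlt t'
    rw [hφ, hφ] at heq
    have e1 : t = x0 + (((t - x0).val : ℕ) : ZMod (2 * n)) := by
      rw [ZMod.natCast_zmod_val]; ring
    have e2 : t' = x0 + (((t' - x0).val : ℕ) : ZMod (2 * n)) := by
      rw [ZMod.natCast_zmod_val]; ring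
    split_ifs at heq with c1 c2 c2
    · rw [e1, e2, heq]
    · exfalso
      apply hA t ht (2 * n - L) (by omega) le_rfl
      have : (t' - x0).val = (t - x0).val + (2 * n - L) := by omega
      rw [this] at e2
      rw [show t + ((2 * n - L : ℕ) : ZMod (2 * n)) = t' by
        rw [e2]; nth_rewrite 1 [e1]; rw [Nat.cast_add]; ring]
      exact ht'
    · exfalso
      apply hA t' ht' (2 * n - L) (by omega) le_rfl
      have : (t - x0).val = (t' - x0).val + (2 * n - L) := by omega
      rw [this] at e1
      rw [show t' + ((2 * n - L : ℕ) : ZMod (2 * n)) = t by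
        rw [e1]; nth_rewrite 1 [e2]; rw [Nat.cast_add]; ring]
      exact ht
    · have : (t - x0).val = (t' - x0).val := by omega
      rw [e1, e2, this]

/-- Intervals at distance at least `2 p + s` are disjoint. -/
lemma win_disjoint {n p s : ℕ} (hn : 0 < n) (t : ZMod (2 * n)) (m : ℕ)
    (h1 : 2 * p + s ≤ m) (h2 : m ≤ 2 * n - (2 * p + s)) (h : 2 * p + s ≤ n) :
    Disjoint (win n p s t) (win n p s (t + m)) := by
  have : NeZero (2 * n) := ⟨by omega⟩
  rw [Finset.disjoint_left]
  intro v hv hv'
  rw [mem_win] at hv hv'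
  set u := (pos n s v - t).val with hu
  have h3 : pos n s v - (t + (m : ZMod (2 * n))) = ((u + (2 * n - m) : ℕ) : ZMod (2 * n)) := by
    rw [Nat.cast_add, hu, ZMod.natCast_zmod_val, Nat.cast_sub (by omega), ZMod.natCast_self]
    ring
  rw [h3, ZMod.val_natCast_of_lt (by omega)] at hv'
  omega

/-- The pairs (symmetry, interval) which produce a given set. -/
def pairs (n p s : ℕ) [NeZero (2 * n)] (𝓕 : Finset (Finset (Fin n × Bool))) :
    Finset (Equiv.Perm (Fin n × Bool) × ZMod (2 * n)) :=
  (G n ×ˢ univ).filter fun q => (win n p s q.2).map q.1.toEmbedding ∈ 𝓕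

lemma pairs_card_eq_sum {n p s : ℕ} [NeZero (2 * n)] (𝓕 : Finset (Finset (Fin n × Bool))) :
    (pairs n p s 𝓕).card = ∑ F ∈ 𝓕, (pairs n p s {F}).card := by
  rw [Finset.card_eq_sum_card_fiberwise (f := fun q : Equiv.Perm (Fin n × Bool) × ZMod (2 * n) =>
    (win n p s q.2).map q.1.toEmbedding) (t := 𝓕)]
  · refine sum_congr rfl fun F hF => ?_
    congr 1
    ext q
    simp only [pairs, mem_filter, mem_singleton]
    constructor
    · rintro ⟨⟨h1, _⟩, h2⟩
      exact ⟨h1, h2⟩
    · rintro ⟨h1, h2⟩
      exact ⟨⟨h1, h2 ▸ hF⟩, h2⟩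
  · intro q hq
    exact (mem_filter.mp (mem_coe.mp hq)).2

lemma pairs_le {n p s : ℕ} [NeZero (2 * n)] {F F' : Finset (Fin n × Bool)} (hF : F ∈ H n p s)
    (hF' : F' ∈ H n p s) : (pairs n p s {F}).card ≤ (pairs n p s {F'}).card := by
  obtain ⟨τ, hτ, hτF⟩ := transitive hF hF'
  apply card_le_card_of_injOn (fun q => (τ * q.1, q.2))
  · intro q hq
    have hq' := mem_filter.mp (mem_coe.mp hq)
    have h1 := (mem_product.mp hq'.1).1
    have h2 := mem_singleton.mp hq'.2
    refine mem_coe.mpr (mem_filter.mpr ⟨mem_product.mpr ⟨G_mul hτ h1, mem_univ _⟩, ?_⟩)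
    rw [mem_singleton, ← hτF, ← h2, Finset.map_map]
    rfl
  · intro q _ q' _ h
    have h1 := congrArg Prod.fst h
    have h2 := congrArg Prod.snd h
    exact Prod.ext (mul_left_cancel h1) h2

lemma pairs_sum {n p s : ℕ} [NeZero (2 * n)] (𝓕 : Finset (Finset (Fin n × Bool))) :
    (pairs n p s 𝓕).card = ∑ σ ∈ G n, (univ.filter fun t : ZMod (2 * n) =>
      (win n p s t).map σ.toEmbedding ∈ 𝓕).card := by
  unfold pairs
  rw [card_filter, sum_product]
  refine sum_congr rfl fun σ _ => ?_
  rw [card_filter]

/-- **The Fuentes–Kamat conjecture.** For all `p`, `s` and `n ≥ 2 p + s`, every intersecting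
subfamily of `H^(p,s)(n)` has at most as many members as the largest star. -/
theorem result (n p s : ℕ) (h : 2 * p + s ≤ n) (𝓕 : Finset (Finset (Fin n × Bool)))
    (hsub : 𝓕 ⊆ H n p s) (hint : ∀ A ∈ 𝓕, ∀ B ∈ 𝓕, (A ∩ B).Nonempty) :
    𝓕.card ≤ univ.sup fun x => (star n p s x).card := by
  classical
  rcases Nat.eq_zero_or_pos n with rfl | hn
  · have : 𝓕 = ∅ := by
      rw [Finset.eq_empty_iff_forall_notMem]
      intro A hA
      obtain ⟨x, _⟩ := hint A hA A hA
      exact Fin.elim0 x.1
    simp [this]
  have : NeZero (2 * n) := ⟨by omega⟩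
  have hle : 𝓕.card ≤ (star n p s (⟨0, hn⟩, true)).card := by
    set x : Fin n × Bool := (⟨0, hn⟩, true) with hx
    have hF0 := win_mem hn h (0 : ZMod (2 * n)) (p := p) (s := s)
    set c := (pairs n p s {win n p s 0}).card with hc
    have hconst : ∀ F ∈ H n p s, (pairs n p s {F}).card = c := fun F hF =>
      le_antisymm (pairs_le hF hF0) (pairs_le hF0 hF)
    have hcpos : 0 < c := by
      apply card_pos.mpr
      refine ⟨(1, 0), mem_filter.mpr ⟨mem_product.mpr ⟨mem_G.mpr fun v => rfl, mem_univ _⟩, ?_⟩⟩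
      rw [mem_singleton]
      exact Finset.map_refl
    have h1 : 𝓕.card * c = (pairs n p s 𝓕).card := by
      rw [pairs_card_eq_sum, sum_congr rfl fun F hF => hconst F (hsub hF), sum_const, smul_eq_mul]
    have hstar : ∀ F ∈ star n p s x, F ∈ H n p s := by
      intro F hF
      unfold star at hF
      exact (mem_filter.mp hF).1
    have h2 : (star n p s x).card * c = (pairs n p s (star n p s x)).card := by
      rw [pairs_card_eq_sum, sum_congr rfl fun F hF => hconst F (hstar F hF), sum_const,
        smul_eq_mul]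
    have h3 : (pairs n p s 𝓕).card ≤ ∑ σ ∈ G n, (2 * p + s) := by
      rw [pairs_sum]
      refine sum_le_sum fun σ _ => ?_
      apply katona hn h
      intro t ht m hm1 hm2 hcon
      rw [mem_filter] at ht hcon
      have h4 := hint _ ht.2 _ hcon.2
      rw [← Finset.map_inter, Finset.map_nonempty,
        Finset.disjoint_iff_inter_eq_empty.mp (win_disjoint hn t m hm1 hm2 h)] at h4
      exact Finset.not_nonempty_empty h4
    have h4 : (pairs n p s (star n p s x)).card = ∑ σ ∈ G n, (2 * p + s) := by
      rw [pairs_sum]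
      refine sum_congr rfl fun σ hσ => ?_
      rw [← card_times hn h (σ.symm x)]
      congr 1
      ext t
      rw [mem_filter, mem_filter]
      unfold star
      rw [mem_filter, mem_map_equiv]
      simp only [mem_univ, true_and]
      exact ⟨fun h5 => h5.2, fun h5 => ⟨map_mem_H (win_mem hn h t) hσ, h5⟩⟩
    have h5 : 𝓕.card * c ≤ (star n p s x).card * c := by omega
    exact Nat.le_of_mul_le_mul_right h5 hcpos
  exact hle.trans (Finset.le_sup (f := fun x => (star n p s x).card) (mem_univ _))

end Pool.Agent.Results.MP_cbbe60_co.PartialMatchings
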